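import Mathlib
import Pool.Agent.NPC.Defs
import Pool.Agent.H559R2.SharingDefs
import Pool.Agent.H559R2.SharingPoly

/-!
# Superlinear lower bounds for circuits with few shared gates

An explicit Boolean function `f`, decidable in polynomial time, such that every fan-in-two circuit
(arbitrary gates, possibly with `q` nondeterministic guess bits) computing `f` on `N` bits
satisfies `N ^ 2 ≤ 4096 * K ^ 2 * (g + 1) * (t + q + log₂ N)` for every `K ≥ 1`, where `g` is the
number of gates that lie above more than `K` variables, and `t` is the number of those that have
fan-out at least two.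

The function is: half of the input is a message `z`, read as the 0/1 coefficients of a polynomial
`P` over the prime field `F_p`, `p` the least prime above `(N/2)^2`; the other half consists of
blocks `(u_j, v_j)`; the value is the parity of the sum over `j` of the inner products of `v_j`
with the binary digits of `P (u_j)`.
-/

namespace Pool.Agent.Results.MP_22d2c8_lc.FewSharedGates

open Pool.Agent.H559R2.Sharing Pool.Agent.NPC

theorem result : ∃ f : List Bool → Bool,
    (∃ V : List Bool → List Bool, PolyTime V ∧ ∀ x, f x = true ↔ V x = [true]) ∧
    ∀ (N q K : ℕ) (C : Circuit N q), 2 ≤ N → 1 ≤ K →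
      C.Computes (fun x => f (List.ofFn x)) →
      N ^ 2 ≤ 4096 * (K ^ 2 * (C.numGlobal K + 1) * (C.numShared K + q + Nat.log 2 N)) := by
  refine ⟨fun x => hardFun x.length x.get, H559Sharing.hard_in_P, ?_⟩
  intro N q K C hN hK hC
  have key : (fun x : Fin N → Bool =>
      hardFun (List.ofFn x).length (List.ofFn x).get) = hardFun N := by
    funext x
    have h : ∀ (M : ℕ) (y : Fin M → Bool) (hM : M = N) (_ : ∀ i : Fin M, y i = x (Fin.cast hM i)),
        hardFun M y = hardFun N x := by
      intro M y hM hy
      subst hM
      congr 1
      funext i
      exact hy i
    refine h _ _ (List.length_ofFn) ?_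
    intro i
    simp
    rfl
  have hC' : C.Computes (hardFun N) := by
    rw [← key]
    exact hC
  have := sharing_tradeoff hN hK C hC'
  simpa using this

end Pool.Agent.Results.MP_22d2c8_lc.FewSharedGates
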