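import Mathlib
import Pool.Agent.H870R2.LS.YFinal

/-! An explicit function: solvability of sparse systems of linear equations over the field with two
elements (every equation has four unknowns, every unknown is in at most four equations), and networks
for it which are symmetric under the 3-cycles inside disjoint blocks of four unknowns. -/

namespace Pool.Agent.H870R2.PC

open H522R2.LS

/-- **Locally symmetric networks for linear systems over the field with two elements.** -/
theorem _root_.Pool.Agent.Results.MP_22d2c8_lc.LocalSymmetry.result :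
    -- (1) lower bound, exponential in the number `r` of blocks
    (∀ (K Ω : Type) (_ : Fintype Ω) (_ : DecidableEq Ω) (r : ℕ) (β : Fin r × Fin 4 ↪ Ω)
      (C : PNet (Eqn Ω) K) (acc : Set K),
      C.Decides acc (Sparse4 Ω) Solvable →
      (∀ (v : Fin r) (x y z : Fin 4), x ≠ y → y ≠ z → x ≠ z →
        C.SymmUnder (eqnMap (cyc (β (v, x)) (β (v, y)) (β (v, z))))) →
      2 ^ (r / 960) ≤ Fintype.card C.G ∧
      -- in terms of the number `2 * n.choose 4` of inputs
      ∀ k : ℕ, 3840 * k * Nat.clog 2 (Fintype.card Ω) ≤ r →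
        (2 * (Fintype.card Ω).choose 4) ^ k ≤ Fintype.card C.G) ∧
    -- (2) converse
    (∀ (K Ω : Type) (_ : Fintype Ω) (_ : DecidableEq Ω) (r : ℕ) (β : Fin r × Fin 4 ↪ Ω)
      (C : PNet (Eqn Ω) K) (enc : Prop → K),
      (∀ A ∈ Sparse4 Ω, C.val A C.out = enc (Solvable A)) →
      ∃ C' : PNet (Eqn Ω) K,
        (∀ A ∈ Sparse4 Ω, C'.val A C'.out = enc (Solvable A)) ∧
        (∀ g : Equiv.Perm Ω, Preserves β g → C'.SymmUnder (eqnMap g)) ∧
        Fintype.card C'.G = 24 ^ r * Fintype.card C.G + 1 ∧
        (∀ g', g' ≠ C'.out → ∃ g, C'.F g' = C.F g) ∧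
        ∀ (o : Option ℕ) (k : K) (n : ℕ), 0 < n → C'.F C'.out o (n • ({k} : Multiset K)) = k) := by
  refine ⟨?_, ?_⟩
  · intro K Ω _ _ r β C acc hC hsym
    exact ⟨lower_lin β C hC hsym, fun k hk => lower_lin_pow β C hC hsym k hk⟩
  · intro K Ω _ _ r β C enc hC
    exact exists_symm_lin β C enc hC

end Pool.Agent.H870R2.PC
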