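import Mathlib
import Pool.Agent.NPC.Defs
import Pool.Agent.NPC.Dec
import Pool.Agent.H559R3.UDefs
import Pool.Agent.H559R3.UMain

/-!
# Explicit functions without small circuits that can be described with sublinear advice

Let `𝒞` be a class of languages that contains `P` and is closed under polynomial-time many-one
reductions, for instance `P` or `NP`.  Let `σ` be a nondecreasing function between a root of
`log n` and `n ^ (1 - 1 / e)`.  Then for every `k` some language of `𝒞` has no circuits of size
`O(n * σ n ^ k)` whose descriptions can be computed in `𝒞` with `n / σ n` bits of advice.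

Proof.  Otherwise every language of `𝒞` has such circuits.  Take a diagonal language in `P`, the
language of the bits of the descriptions of its circuits (with the advice as an input), the
language of the bits of the descriptions of the circuits of that language, and so on `r` times.
The input length shrinks by a factor `σ` at each level, so that the circuit of the last level can
be written down explicitly in `o(n)` bits, and so can the advice strings of all levels.  From this
code a fixed polynomial-time algorithm decodes the circuit for the diagonal language; the
diagonal language is defined so as to differ from the decoded circuit on the padded code.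
-/

namespace Pool.Agent.Results.MP_22d2c8_lc.SublinearAdvice

open Pool.Agent.NPC Pool.Agent.NPC.H559U

theorem result (𝒞 : Set (Set (List Bool))) (hP : ∀ L, InP L → L ∈ 𝒞)
    (hR : ∀ L L', Reduces L L' → L' ∈ 𝒞 → L ∈ 𝒞)
    (σ : ℕ → ℕ) (hσ : Monotone σ) (t e : ℕ)
    (hσ1 : ∀ᶠ n in Filter.atTop, Nat.log 2 n ≤ σ n ^ t)
    (hσ2 : ∀ᶠ n in Filter.atTop, σ n ^ e * n ≤ n ^ e)
    (a : ℕ → ℕ) (ha : ∀ᶠ n in Filter.atTop, a n * σ n ≤ n) (k : ℕ) :
    ∃ L ∈ 𝒞, ∀ c, ¬ HasUniformCircuits 𝒞 a (fun n => c * (n * σ n ^ k)) L :=
  main 𝒞 hP hR σ hσ t e hσ1 hσ2 a ha k

end Pool.Agent.Results.MP_22d2c8_lc.SublinearAdvice
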