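import Mathlib
import Pool.Agent.NPC.Defs
import Pool.Agent.H468R2.Frag.Defs
import Pool.Agent.H468R2.Frag.Final
import Pool.Agent.H468R2.Frag.WordPoly

/-!
# A superlinear lower bound for circuits whose gate graph has sublinear treewidth

An explicit Boolean function `f`, decidable in polynomial time, such that every fan-in-two circuit
(arbitrary gates, possibly with `q` nondeterministic guess bits) computing `f` on `N` bits has at
least `N (log₂ (N / w))² / 2 ^ 18` gates whenever its gate graph (the input variables are deleted,
so that they may be read any number of times) has treewidth less than `w`, or, more generally,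
whenever its gates can be partitioned into blocks each reading at most `w` input variables so
that at most `w` nodes feed a gate of another block.

The function: the input encodes a word over the alphabet `0`, `1`, blank, separator; the word is
split at the separators and the blanks are deleted; the value is the parity of the number of
columns consisting of ones only (generalised inner product).

The modules `Gip`, `Choose`, `Word`, `WordPoly`, `TreeSep` were formalised by helper629, helper51,
helper909, helper431 and helper506.
-/

namespace Pool.Agent.Results.MP_22d2c8_lc.SublinearTreewidth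

open Pool.Agent.H559R2.Sharing Pool.Agent.NPC Pool.Agent.H468R2.Frag

theorem result : ∃ f : List Bool → Bool,
    (∃ V : List Bool → List Bool, PolyTime V ∧ ∀ x, f x = true ↔ V x = [true]) ∧
    ∀ (N q w : ℕ) (C : Circuit N q), 1 ≤ w → w ≤ N →
      C.Computes (fun x => f (List.ofFn x)) →
      ((∃ t < w, HasTreeDec (gateAdj C) t) ∨
        ∃ κ : Node q C.size → ℕ, (∀ b, (blockVars C κ b).card ≤ w) ∧ (boundary C κ).card ≤ w) →
      (N : ℝ) * (Real.logb 2 (N / w)) ^ 2 ≤ 2 ^ 18 * C.size := by
  refine ⟨fun x => gipFun x.length x.get, gipFun_in_P, ?_⟩
  intro N q w C hw hwN hC h
  have key : (fun x : Fin N → Bool =>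
      gipFun (List.ofFn x).length (List.ofFn x).get) = gipFun N := by
    funext x
    have h : ∀ (M : ℕ) (y : Fin M → Bool) (hM : M = N) (_ : ∀ i : Fin M, y i = x (Fin.cast hM i)),
        gipFun M y = gipFun N x := by
      intro M y hM hy
      subst hM
      congr 1
      funext i
      exact hy i
    refine h _ _ (List.length_ofFn) ?_
    intro i
    simp
    rfl
  have hC' : C.Computes (gipFun N) := by
    rw [← key]
    exact hC
  rcases h with ⟨t, ht, hT⟩ | ⟨κ, h1, h2⟩
  · exact size_ge_of_treeDec C hC' w t ht hwN hT
  · exact size_ge_of_partition C hC' w hw hwN κ h1 h2

end Pool.Agent.Results.MP_22d2c8_lc.SublinearTreewidth
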